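import Pool.Agent.Helper292.ForceCH
import Pool.Agent.Results.MP_eb0437_lc.MonotoneHullsIndependent

set_option autoImplicit false

/-!
# MP_eb0437_lc, Q1 and Q2: consistently, there is a monotone `G_δ` hull operation on the Borel sets

Part (A): over every ground model some notion of forcing forces the continuum hypothesis and
preserves `ω₁`. Part (B), in ZFC: the continuum hypothesis implies that every class of Borel subsets of
`[0,1]` has a monotone `G_δ` hull operation.
-/

namespace Pool.Agent.Results.MP_eb0437_lc.Consistent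

open MonotoneHullsIndependent
open Pool.Agent.Helper292.ForceCH (OmegaOnePreserved CHHolds DiamondHolds)

theorem result :
    (∃ (P : Type) (_ : Preorder P), Nonempty P ∧ ∀ p : P,
      p ∈ OmegaOnePreserved P ∧ p ∈ CHHolds P) ∧
    (Fsigma01 ⊆ Borel01 ∧ FsigmaDeltaSigma01 ⊆ Borel01 ∧
      (Cardinal.aleph 1 = Cardinal.continuum.{0} →
        ∀ 𝓓 : Set (Set ℝ), 𝓓 ⊆ Borel01 → HasMonotoneHull 𝓓 Gdelta01)) := by
  refine ⟨?_, MonotoneHullsIndependent.result.1.1.trans MonotoneHullsIndependent.result.1.2,
    MonotoneHullsIndependent.result.1.2, MonotoneHullsIndependent.result.2.1⟩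
  obtain ⟨P, hP, hne, h⟩ := Pool.Agent.Helper292.ForceCH.exists_forcing
  exact ⟨P, hP, hne, fun p => ⟨(h p).1, (h p).2.2⟩⟩

end Pool.Agent.Results.MP_eb0437_lc.Consistent
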